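import Pool.Agent.Helper68.SG2.GoalsC

/-!
# Packet SH2-CNTT (MP_a41896_nt): the number of terms
(adapted from `Pool/Agent/Helper7/SGC1/CNTA.lean` of helper7)
-/

set_option autoImplicit false

namespace Pool.Agent.Helper45.SG2

open Pool.Agent.Helper42.SG Pool.Agent.Helper68.SG2
open Pool.Agent.Helper77.SGC (N0)

theorem sum_half (n : ℕ) (f : ℕ → ℕ) :
    ∑ h ∈ Finset.range (2 * n), f (h / 2) = 2 * ∑ j ∈ Finset.range n, f j := by
  induction n with
  | zero => simp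
  | succ n ih =>
    rw [show 2 * (n + 1) = 2 * n + 1 + 1 by ring, Finset.sum_range_succ, Finset.sum_range_succ, ih,
      Finset.sum_range_succ]
    have h1 : 2 * n / 2 = n := by omega
    have h2 : (2 * n + 1) / 2 = n := by omega
    rw [h1, h2]
    ring

theorem nat_bound (n M δ : ℕ) (hn : 1 ≤ n) (e : ℕ → ℕ) :
    2 ^ (2 * n) * (∏ h : Fin (2 * n), (N0 M (e (h.val / 2)) + 1)) *
      (((∏ h : Fin (2 * n), 4 ^ e (h.val / 2) * (M + 1)) * δ ^ 2) * (2 * M + 1) ^ (2 * n)) ≤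
    (256 * (2 ^ (2 * n) * (2 * M + 2) ^ (2 * n) *
      ((M + 1) ^ (2 * n) * δ ^ 2 * (2 * M + 1) ^ (2 * n)) + 1)) ^ sq n e := by
  set D := 2 ^ (2 * n) * (2 * M + 2) ^ (2 * n) *
    ((M + 1) ^ (2 * n) * δ ^ 2 * (2 * M + 1) ^ (2 * n)) with hD
  have hQ1 : ∏ h : Fin (2 * n), (N0 M (e (h.val / 2)) + 1) ≤
      (∏ h : Fin (2 * n), 4 ^ e (h.val / 2)) * (2 * M + 2) ^ (2 * n) := by
    have h0 : (2 * M + 2) ^ (2 * n) = ∏ _h : Fin (2 * n), (2 * M + 2) := by simp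
    rw [h0, ← Finset.prod_mul_distrib]
    apply Finset.prod_le_prod'
    intro h _
    have h4 : 1 ≤ 4 ^ e (h.val / 2) := Nat.one_le_pow _ _ (by norm_num)
    unfold N0
    nlinarith
  have hQ2 : ∏ h : Fin (2 * n), 4 ^ e (h.val / 2) * (M + 1) =
      (∏ h : Fin (2 * n), 4 ^ e (h.val / 2)) * (M + 1) ^ (2 * n) := by
    rw [Finset.prod_mul_distrib]
    simp
  set Q := ∏ h : Fin (2 * n), 4 ^ e (h.val / 2) with hQ
  have hQQ : Q * Q ≤ 256 ^ sq n e := by
    have h1 : Q = 4 ^ (2 * ∑ j ∈ Finset.range n, e j) := by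
      rw [hQ, Finset.prod_pow_eq_pow_sum, ← sum_half n e]
      rw [Fin.sum_univ_eq_sum_range (fun i => e (i / 2)) (2 * n)]
    have h2 : Q * Q = 256 ^ (∑ j ∈ Finset.range n, e j) := by
      rw [h1, ← pow_add, show (256 : ℕ) = 4 ^ 4 by norm_num, ← pow_mul]
      congr 1
      ring
    rw [h2]
    apply Nat.pow_le_pow_right (by norm_num)
    unfold Pool.Agent.Helper42.SG.sq
    exact Finset.sum_le_sum fun j _ => (Nat.lt_pow_self (by norm_num)).le
  have hsq : 1 ≤ sq n e := by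
    unfold Pool.Agent.Helper42.SG.sq
    have : ∑ j ∈ Finset.range n, 1 ≤ ∑ j ∈ Finset.range n, 4 ^ e j :=
      Finset.sum_le_sum fun j _ => Nat.one_le_pow _ _ (by norm_num)
    simp only [Finset.sum_const, Finset.card_range, smul_eq_mul, mul_one] at this
    omega
  calc 2 ^ (2 * n) * (∏ h : Fin (2 * n), (N0 M (e (h.val / 2)) + 1)) *
      (((∏ h : Fin (2 * n), 4 ^ e (h.val / 2) * (M + 1)) * δ ^ 2) * (2 * M + 1) ^ (2 * n))
      ≤ 2 ^ (2 * n) * (Q * (2 * M + 2) ^ (2 * n)) *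
      (((Q * (M + 1) ^ (2 * n)) * δ ^ 2) * (2 * M + 1) ^ (2 * n)) := by
        rw [hQ2]
        exact Nat.mul_le_mul_right _ (Nat.mul_le_mul_left _ hQ1)
    _ = (Q * Q) * D := by rw [hD]; ring
    _ ≤ 256 ^ sq n e * (D + 1) ^ sq n e :=
        Nat.mul_le_mul hQQ (by
          calc D ≤ (D + 1) ^ 1 := by rw [pow_one]; exact Nat.le_succ D
            _ ≤ (D + 1) ^ sq n e := Nat.pow_le_pow_right (Nat.succ_pos D) hsq)
    _ = (256 * (D + 1)) ^ sq n e := (mul_pow 256 (D + 1) _).symm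

/-- PACKET CNTT. -/
theorem t_CNTT : CNTT := by
  intro n M δ hn
  refine ⟨((256 * (2 ^ (2 * n) * (2 * M + 2) ^ (2 * n) *
    ((M + 1) ^ (2 * n) * δ ^ 2 * (2 * M + 1) ^ (2 * n)) + 1) : ℕ) : ℝ), ?_, ?_⟩
  · have : 1 ≤ 256 * (2 ^ (2 * n) * (2 * M + 2) ^ (2 * n) *
      ((M + 1) ^ (2 * n) * δ ^ 2 * (2 * M + 1) ^ (2 * n)) + 1) :=
      Nat.one_le_iff_ne_zero.2 (by positivity)
    exact_mod_cast this
  · intro e
    have h := nat_bound n M δ hn e
    have h1 : Fintype.card (Fin (2 * n) → Fin 2) = 2 ^ (2 * n) := by simp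
    have h2 : (Fintype.piFinset (fun h : Fin (2 * n) =>
        Finset.range (N0 M (e (h.val / 2)) + 1))).card =
        ∏ h : Fin (2 * n), (N0 M (e (h.val / 2)) + 1) := by
      rw [Fintype.card_piFinset]
      simp
    have h3 : Fintype.card (Idx n M δ e) =
        (∏ h : Fin (2 * n), 4 ^ e (h.val / 2) * (M + 1)) * δ ^ 2 := by
      simp only [Idx, Fintype.card_prod, Fintype.card_pi, Fintype.card_fin]
      simp
    rw [h1, h2, h3]
    exact_mod_cast h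

end Pool.Agent.Helper45.SG2
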