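import Pool.Agent.Helper68.SG2.GoalsE

/-!
# Packet SH2-FND (MP_a41896_nt): nondegeneracy and heights in one factor
(the elliptic part is adapted from `Pool/Agent/Helper79/SGE/NDG.lean` of helper79)
-/

set_option autoImplicit false

namespace Pool.Agent.Helper45.SG2

open WeierstrassCurve Height Height.AdmissibleAbsValues
open Pool.Agent.Helper29.BL Pool.Agent.Helper92.Ru Pool.Agent.Helper42.SG
open Pool.Agent.Helper68.SG2

/-- PACKET FND. -/
theorem t_FND (hD : EDUP) (hU : EUP) : FND := by
  intro K _ _ _ W t H co cp c₀ hF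
  have hc : 0 ≤ c₀ := le_trans (abs_nonneg _) (hF.near 0)
  have h0 : H (0 : W.Point) = 0 := by
    have h := hF.mul 0 0
    rw [zero_smul, Nat.cast_zero] at h
    rw [h]
    split_ifs <;> simp
  have hc0 : hx (0 : W.Point) = 0 := by
    simp [hx, logHeight₁_zero]
  refine ⟨fun P => ?_, fun P hP => ?_⟩
  · cases t with
    | false =>
      rw [((hF.ell rfl).2 P).1]
      have h1 := abs_le.1 (hF.near P)
      have h2 : hx P = logHeight₁ (xc P) := rfl
      linarith [h1.1]
    | true =>
      have h1 := (hF.gm rfl).2.2.2 P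
      have h2 := hF.nonneg P
      linarith
  have hne : P ≠ 0 := by
    rintro rfl
    rw [hc0] at hP
    linarith
  have hn := abs_le.1 (hF.near P)
  cases t with
  | false =>
    obtain ⟨hell, hco⟩ := hF.ell rfl
    have h4 : hx P ≤ 4 * logHeight₁ (co P) := by
      rw [(hco P).1]
      show hx P ≤ 4 * hx P
      linarith
    refine ⟨hne, h4, fun h => absurd h (by simp), fun _ => ?_⟩
    rw [(hco P).1, (hco P).2]
    have h5 := (hU K W).1 P hne
    refine ⟨h5, fun hps => ?_, rfl⟩
    have hB : Bf W (xc P) = 0 := by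
      rw [← h5, hps]
      simp
    have hPh : (Ph W 1 (xc P)).2 = 0 := by
      have : (Ph W 1 (xc P)).2 = Bf W (xc P) := by
        simp [Ph, Bh, Bf]
      rw [this, hB]
    have h2 : (2 ^ 1) • P = 0 := ((hD K W P 1 hne).2.1).1 hPh
    have h6 := hF.mul (2 ^ 1) P
    rw [h2, h0] at h6
    have hHP : H P = 0 := by
      norm_num at h6
      linarith
    rw [hHP] at hn
    linarith [hn.1]
  | true =>
    obtain ⟨hmul, hco, hxc, hH⟩ := hF.gm rfl
    refine ⟨hne, ?_, fun _ => ⟨(hco P).1, (hxc P hne).1, (hco P).2, (hxc P hne).2⟩,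
      fun h => absurd h (by simp)⟩
    have h1 := hH P
    linarith [hn.1]

end Pool.Agent.Helper45.SG2
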